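import Pool.Agent.Helper29.SH.Goals

/-!
# Packet SH-QHOM (MP_0a002a_al)
-/

set_option autoImplicit false

namespace Pool.Agent.Helper71.SH

open Subgroup Pool.H83Shunkov Pool.Agent.Helper29.SH

theorem t_QHOM : S_QHOM := by
  intro G G' _ _ f hf hQ H _ h hh hS hI
  refine hQ H (f.comp h) ?_ hS hI
  let φ : (f.comp h).ker →* f.ker :=
    { toFun := fun x => ⟨h x.1, x.2⟩
      map_one' := Subtype.ext (map_one h)
      map_mul' := fun x y => Subtype.ext (map_mul h x.1 y.1) }
  have hφ : ∀ x : φ.ker, h x.1.1 = 1 := fun x => congrArg Subtype.val (MonoidHom.mem_ker.1 x.2)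
  let j : φ.ker →* h.ker :=
    { toFun := fun x => ⟨x.1.1, MonoidHom.mem_ker.2 (hφ x)⟩
      map_one' := rfl
      map_mul' := fun _ _ => rfl }
  have hj : Function.Injective j := by
    intro x y hxy
    have h1 : (j x).1 = (j y).1 := congrArg Subtype.val hxy
    exact Subtype.ext (Subtype.ext h1)
  exact good_of_ker_range φ (hh.comp j hj) hf

end Pool.Agent.Helper71.SH
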